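import Mathlib
import Pool.Agent.H46.AB.Fin

/-!
# Products of linear forms: Q1 holds as soon as one block of factors is algebraic of degree `d`

Let `d ≥ 3`, let `F` be the product of the linear forms given by the rows of the invertible real
matrix `g`, let `K` be a number field of degree at most `d`, `w ∈ K ^ d`, and let `T` be a set of
embeddings of `K` which is not a union of classes of embeddings with the same restriction to a
proper totally real subfield (for instance a single embedding).  Suppose that the closure of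
`A g GL_d(ℤ)`, `A`
the diagonal matrices, contains an invertible matrix `g'` such that some of its rows have the same
complex span as the vectors `σ(w)`, `σ ∈ T`.  Then `F` is proportional to an integral form, or `F`
takes arbitrarily small values at nonzero integral vectors.

With `g' = g` and `T = {σ}`, `σ` real: one factor has, up to a scalar, coefficients in a real number
field of degree at most `d`; the other factors are arbitrary.
-/

set_option autoImplicit false

namespace Pool.Agent.Results.MP_edeaa2_an.AlgebraicBlock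

theorem result (d : ℕ) (hd : 3 ≤ d) (g g' : Matrix (Fin d) (Fin d) ℝ) (hg : g.det ≠ 0)
    (hg' : g'.det ≠ 0)
    (hcl : g' ∈ closure {h : Matrix (Fin d) (Fin d) ℝ |
      ∃ (a : Fin d → ℝ) (γ : Matrix (Fin d) (Fin d) ℤ), IsUnit γ.det ∧
        h = Matrix.diagonal a * g * γ.map (Int.cast : ℤ → ℝ)})
    (K : Type) [Field K] [NumberField K] (hK : Module.finrank ℚ K ≤ d) (w : Fin d → K)
    (T : Set (K →+* ℂ))
    (hT : ∀ L : Subfield K, NumberField.IsTotallyReal L →
      (∀ σ τ : K →+* ℂ, (∀ x ∈ L, σ x = τ x) → σ ∈ T → τ ∈ T) → L = ⊤)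
    (I : Set (Fin d)) (hI : I.Nonempty)
    (hblock : Submodule.span ℂ ((fun i j => (g' i j : ℂ)) '' I) =
      Submodule.span ℂ ((fun (σ : K →+* ℂ) j => σ (w j)) '' T)) :
    (∃ c : ℝ, c ≠ 0 ∧ ∀ m : Fin d →₀ ℕ, ∃ z : ℤ,
        MvPolynomial.coeff m
          (c • (∏ i : Fin d, ∑ j : Fin d,
            MvPolynomial.C (g i j) * MvPolynomial.X j : MvPolynomial (Fin d) ℝ)) = (z : ℝ)) ∨
      ∀ ε : ℝ, 0 < ε → ∃ x : Fin d → ℤ, x ≠ 0 ∧
        |∏ i : Fin d, ∑ j : Fin d, g i j * (x j : ℝ)| < ε := by
  by_cases h : ∀ ε : ℝ, 0 < ε → ∃ x : Fin d → ℤ, x ≠ 0 ∧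
        |∏ i : Fin d, ∑ j : Fin d, g i j * (x j : ℝ)| < ε
  · exact Or.inr h
  · left
    push Not at h
    obtain ⟨ε, hε, hl⟩ := h
    exact H46.AB.main d hd g g' hg hg' hcl K w hK T hT I hI hblock ε hε hl

end Pool.Agent.Results.MP_edeaa2_an.AlgebraicBlock
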