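import Mathlib
import Pool.Agent.H46.AF.Fin

/-!
# Products of linear forms: Q1 holds as soon as one factor is algebraic of degree at most `d`

Let `d ≥ 3`, let `F` be the product of the linear forms given by the rows of the invertible real
matrix `g`, and suppose that the closure of `A g GL_d(ℤ)`, `A` the diagonal matrices, contains an
invertible matrix `g'` one row of which (or one column of the inverse of which) is proportional to
a vector with entries in a real number field of degree at most `d`.  Then `F` is proportional to an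
integral form, or `F` takes arbitrarily small values at nonzero integral vectors.
-/

set_option autoImplicit false

namespace Pool.Agent.Results.MP_edeaa2_an.AlgebraicFactor

theorem result (d : ℕ) (hd : 3 ≤ d) (g g' : Matrix (Fin d) (Fin d) ℝ) (hg : g.det ≠ 0)
    (hg' : g'.det ≠ 0)
    (hcl : g' ∈ closure {h : Matrix (Fin d) (Fin d) ℝ |
      ∃ (a : Fin d → ℝ) (γ : Matrix (Fin d) (Fin d) ℤ), IsUnit γ.det ∧
        h = Matrix.diagonal a * g * γ.map (Int.cast : ℤ → ℝ)})
    (K : IntermediateField ℚ ℝ) [FiniteDimensional ℚ K] (hK : Module.finrank ℚ K ≤ d)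
    (halg : (∃ i : Fin d, ∃ c : ℝ, c ≠ 0 ∧ ∀ j : Fin d, c * g' i j ∈ K) ∨
      (∃ j : Fin d, ∃ c : ℝ, c ≠ 0 ∧ ∀ i : Fin d, c * g'⁻¹ i j ∈ K)) :
    (∃ c : ℝ, c ≠ 0 ∧ ∀ m : Fin d →₀ ℕ, ∃ z : ℤ,
        MvPolynomial.coeff m
          (c • (∏ i : Fin d, ∑ j : Fin d,
            MvPolynomial.C (g i j) * MvPolynomial.X j : MvPolynomial (Fin d) ℝ)) = (z : ℝ)) ∨
      ∀ ε : ℝ, 0 < ε → ∃ x : Fin d → ℤ, x ≠ 0 ∧
        |∏ i : Fin d, ∑ j : Fin d, g i j * (x j : ℝ)| < ε := by
  by_cases h : ∀ ε : ℝ, 0 < ε → ∃ x : Fin d → ℤ, x ≠ 0 ∧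
        |∏ i : Fin d, ∑ j : Fin d, g i j * (x j : ℝ)| < ε
  · exact Or.inr h
  · left
    push Not at h
    obtain ⟨ε, hε, hl⟩ := h
    exact H46.AF.main d hd g g' hg hg' hcl K hK halg ε hε hl

end Pool.Agent.Results.MP_edeaa2_an.AlgebraicFactor
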