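import Pool.Agent.H46.Bi.Fin

/-!
# First integrals of bounded variation of irrational polygonal billiards are constant

U is a polygonal table (open, connected, bounded, the frontier a finite union of segments) with
two sides at an angle that is not a rational multiple of pi, exactly as in the frozen statement
S06555, and f is a measurable function of (position, angle), invariant under straight motion
and under elastic reflection at the regular points of the frontier, again as in S06555. If f has
bounded variation in the direction at every positive distance from a finite set V, then f is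
almost everywhere constant.

Idea of the proof: two orbits whose rays meet at time T (a pencil with opening angle eta) start at
distance about T eta, so the variation of f in the direction at time T, at most C eta, controls
the variation of f across the flow on the scale T eta, with the constant C / T. Letting T go to
infinity (all orbits but those with a two sided singular direction can be followed in the past or
in the future, and near a vertex one waits a little) f is locally a function of the direction;
the reflections in two sides generate an irrational rotation.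
-/

set_option autoImplicit false

open MeasureTheory

namespace Pool.H46.Kept.BoundedVariation

theorem result (U : Set ℂ) (hopen : IsOpen U) (hconn : IsConnected U)
    (hbdd : Bornology.IsBounded U)
    (hpoly : ∃ S : Finset (ℂ × ℂ), frontier U = ⋃ p ∈ S, segment ℝ p.1 p.2)
    (hirr : ∃ a b c d : ℂ, a ≠ b ∧ c ≠ d ∧ segment ℝ a b ⊆ frontier U ∧
      segment ℝ c d ⊆ frontier U ∧
      ¬ ∃ q : ℚ, Complex.arg ((b - a) / (d - c)) = (q : ℝ) * Real.pi)
    (f : ℂ × ℝ → ℝ) (hf : Measurable f)
    (hper : ∀ x : ℂ, ∀ θ : ℝ, f (x, θ) = f (x, θ + 2 * Real.pi))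
    (hstr : ∀ x : ℂ, ∀ θ t : ℝ, 0 ≤ t →
        (∀ s ∈ Set.Icc (0:ℝ) t, x + (s : ℂ) * Complex.exp ((θ : ℂ) * Complex.I) ∈ U) →
        f (x, θ) = f (x + (t : ℂ) * Complex.exp ((θ : ℂ) * Complex.I), θ))
    (hrfl : ∀ x w : ℂ, ∀ θ θ' t ε s : ℝ, 0 < t → 0 < ε → 0 < s → ‖w‖ = 1 →
        (∀ r ∈ Set.Ico (0:ℝ) t, x + (r : ℂ) * Complex.exp ((θ : ℂ) * Complex.I) ∈ U) →
        frontier U ∩ Metric.ball (x + (t : ℂ) * Complex.exp ((θ : ℂ) * Complex.I)) ε =
          {z : ℂ | ∃ r : ℝ, z = x + (t : ℂ) * Complex.exp ((θ : ℂ) * Complex.I) + (r : ℂ) * w} ∩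
            Metric.ball (x + (t : ℂ) * Complex.exp ((θ : ℂ) * Complex.I)) ε →
        Complex.exp ((θ' : ℂ) * Complex.I) =
          w ^ 2 * (starRingEnd ℂ) (Complex.exp ((θ : ℂ) * Complex.I)) →
        (∀ r ∈ Set.Ioc (0:ℝ) s, x + (t : ℂ) * Complex.exp ((θ : ℂ) * Complex.I)
            + (r : ℂ) * Complex.exp ((θ' : ℂ) * Complex.I) ∈ U) →
        f (x, θ) = f (x + (t : ℂ) * Complex.exp ((θ : ℂ) * Complex.I)
            + (s : ℂ) * Complex.exp ((θ' : ℂ) * Complex.I), θ'))
    (V : Finset ℂ)
    (hbv : ∀ r : ℝ, 0 < r → ∃ C : ℝ, ∀ η ∈ Set.Ioo (0 : ℝ) 1,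
      ∫⁻ q in {q : ℂ × ℝ | q.1 ∈ U ∧ q.2 ∈ Set.Ico (0 : ℝ) (2 * Real.pi) ∧
          ∀ v ∈ V, r ≤ ‖q.1 - v‖},
        ‖f (q.1, q.2 + η) - f q‖ₑ ≤ ENNReal.ofReal (C * η)) :
    ∃ c : ℝ, ∀ᵐ q : ℂ × ℝ ∂((volume : Measure (ℂ × ℝ)).restrict
      (U ×ˢ Set.Ico (0:ℝ) (2 * Real.pi))), f q = c :=
  Pool.H46.Bi.main_real hopen hconn hbdd hpoly hirr f hf hper hstr hrfl V hbv

end Pool.H46.Kept.BoundedVariation
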